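import Pool.Agent.Helper15.T6.Stmts

set_option autoImplicit false

/-!
MP_2f9829_co, project T7: for every `d ≥ 3` almost all graphs of maximum degree `d` satisfy the list
edge colouring conjecture. Definitions and basic facts.
-/

open Finset

namespace Pool.Agent.Helper32.T7

open Pool.Agent.Helper15.T6 (Reg ChD)

variable {V : Type} [Fintype V]

open Classical in
/-- The degree of a vertex. -/
noncomputable def dg (G : SimpleGraph V) (v : V) : ℕ := (univ.filter (fun w => G.Adj v w)).card

/-- All degrees are at most `d`. -/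
def MD (d : ℕ) (G : SimpleGraph V) : Prop := ∀ v, dg G v ≤ d

/-- The deficiency of a vertex. -/
noncomputable def dfc (d : ℕ) (G : SimpleGraph V) (v : V) : ℕ := d - dg G v

/-- The total deficiency. -/
noncomputable def sd (d : ℕ) (G : SimpleGraph V) : ℕ := ∑ v, dfc d G v

open Classical in
/-- The deficient vertices. -/
noncomputable def DV (d : ℕ) (G : SimpleGraph V) : Finset V := univ.filter (fun v => dg G v < d)

/-- The excess. -/
noncomputable def ex (d : ℕ) (G : SimpleGraph V) : ℕ := ∑ v, (dfc d G v - 1)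

open Classical in
/-- The graphs with all degrees at most `d` and total deficiency `s`. -/
noncomputable def GG (V : Type) [Fintype V] (d s : ℕ) : Finset (SimpleGraph V) :=
  univ.filter (fun G => MD d G ∧ sd d G = s)

open Classical in
/-- The graphs of `GG V d s` that have excess `x` and are not `d`-edge-choosable. -/
noncomputable def BG (V : Type) [Fintype V] (d s x : ℕ) : Finset (SimpleGraph V) :=
  (GG V d s).filter (fun G => ex d G = x ∧ ¬ ChD d G)

open Classical in
/-- The ordered pairs of deficient vertices that may be joined. -/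
noncomputable def AP (d : ℕ) (G : SimpleGraph V) : Finset (V × V) :=
  univ.filter (fun p => p.1 ≠ p.2 ∧ ¬ G.Adj p.1 p.2 ∧ dg G p.1 < d ∧ dg G p.2 < d)

open Classical in
/-- The ordered pairs of adjacent vertices. -/
noncomputable def DP (G : SimpleGraph V) : Finset (V × V) := univ.filter (fun p => G.Adj p.1 p.2)

/-- The graph with one more edge. -/
def ade (G : SimpleGraph V) (u w : V) : SimpleGraph V := G ⊔ SimpleGraph.edge u w

open Classical in
/-- The graphs of `GG (Fin (n + r)) d s` for which the last `r` vertices have degree `d` and are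
pairwise non-adjacent. -/
noncomputable def IG (n r d s : ℕ) : Finset (SimpleGraph (Fin (n + r))) :=
  (GG (Fin (n + r)) d s).filter (fun G => ∀ i : Fin (n + r), n ≤ (i : ℕ) →
    dg G i = d ∧ ∀ j : Fin (n + r), n ≤ (j : ℕ) → ¬ G.Adj i j)

/-! ### Basic facts -/

theorem dg_eq_ncard (G : SimpleGraph V) (v : V) : Set.ncard (G.neighborSet v) = dg G v := by
  classical
  rw [dg, Set.ncard_eq_toFinset_card']
  congr 1
  ext w
  simp

theorem mem_GG {d s : ℕ} {G : SimpleGraph V} : G ∈ GG V d s ↔ MD d G ∧ sd d G = s := by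
  simp [GG]

theorem mem_BG {d s x : ℕ} {G : SimpleGraph V} :
    G ∈ BG V d s x ↔ (MD d G ∧ sd d G = s) ∧ ex d G = x ∧ ¬ ChD d G := by
  simp [BG, mem_GG]

theorem mem_DV {d : ℕ} {G : SimpleGraph V} {v : V} : v ∈ DV d G ↔ dg G v < d := by
  simp [DV]

theorem mem_AP {d : ℕ} {G : SimpleGraph V} {p : V × V} :
    p ∈ AP d G ↔ p.1 ≠ p.2 ∧ ¬ G.Adj p.1 p.2 ∧ dg G p.1 < d ∧ dg G p.2 < d := by
  simp [AP]

theorem mem_DP {G : SimpleGraph V} {p : V × V} : p ∈ DP G ↔ G.Adj p.1 p.2 := by
  simp [DP]

theorem mem_IG {n r d s : ℕ} {G : SimpleGraph (Fin (n + r))} : G ∈ IG n r d s ↔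
    (MD d G ∧ sd d G = s) ∧ ∀ i : Fin (n + r), n ≤ (i : ℕ) →
      dg G i = d ∧ ∀ j : Fin (n + r), n ≤ (j : ℕ) → ¬ G.Adj i j := by
  simp [IG, mem_GG]

theorem dfc_add {d : ℕ} {G : SimpleGraph V} (h : MD d G) (v : V) : dfc d G v + dg G v = d := by
  have := h v
  unfold dfc
  omega

theorem card_DP (G : SimpleGraph V) : (DP G).card = ∑ v, dg G v := by
  classical
  have h : DP G = (univ.sigma (fun v : V => univ.filter (fun w => G.Adj v w))).map
      (Equiv.sigmaEquivProd V V).toEmbedding := by
    ext ⟨v, w⟩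
    simp [DP]
  rw [h, Finset.card_map, Finset.card_sigma]
  rfl

theorem sd_add {d : ℕ} {G : SimpleGraph V} (h : MD d G) :
    sd d G + ∑ v, dg G v = d * Fintype.card V := by
  unfold sd
  rw [← Finset.sum_add_distrib, Finset.sum_congr rfl (fun v _ => dfc_add h v)]
  simp [mul_comm]

theorem card_DP' {d s : ℕ} {G : SimpleGraph V} (h : G ∈ GG V d s) :
    s + (DP G).card = d * Fintype.card V := by
  obtain ⟨h1, h2⟩ := mem_GG.mp h
  rw [card_DP, ← h2]
  exact sd_add h1

/-- total deficiency = number of deficient vertices + excess -/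
theorem sd_eq (d : ℕ) (G : SimpleGraph V) : sd d G = (DV d G).card + ex d G := by
  classical
  unfold sd ex DV
  rw [Finset.card_filter, ← Finset.sum_add_distrib]
  refine Finset.sum_congr rfl (fun v _ => ?_)
  unfold dfc
  split_ifs with h <;> omega

theorem sd_le_mul (d : ℕ) (G : SimpleGraph V) : sd d G ≤ d * (DV d G).card := by
  classical
  unfold sd
  calc ∑ v, dfc d G v = ∑ v ∈ DV d G, dfc d G v := by
        symm
        apply Finset.sum_subset (Finset.subset_univ _)
        intro v _ hv
        rw [mem_DV] at hv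
        unfold dfc
        omega
    _ ≤ ∑ v ∈ DV d G, d := Finset.sum_le_sum (fun v _ => by unfold dfc; omega)
    _ = d * (DV d G).card := by simp [mul_comm]

/-! ### Adding an edge -/

omit [Fintype V] in
theorem ade_adj (G : SimpleGraph V) (u w a b : V) :
    (ade G u w).Adj a b ↔ G.Adj a b ∨ ((a = u ∧ b = w ∨ a = w ∧ b = u) ∧ a ≠ b) := by
  unfold ade
  rw [SimpleGraph.sup_adj, SimpleGraph.edge_adj]

open Classical in
theorem dg_ade (G : SimpleGraph V) {u w : V} (h : u ≠ w) (h' : ¬ G.Adj u w) (v : V) :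
    dg (ade G u w) v = dg G v + (if v = u then 1 else 0) + (if v = w then 1 else 0) := by
  have h'' : ¬ G.Adj w u := fun hh => h' hh.symm
  unfold dg
  by_cases h1 : v = u
  · subst h1
    have e : univ.filter (fun b => (ade G v w).Adj v b) = insert w (univ.filter (fun b => G.Adj v b)) := by
      ext b
      rw [mem_filter, mem_insert, mem_filter, ade_adj]
      constructor
      · rintro ⟨-, hb | ⟨⟨-, hb⟩ | ⟨hb, -⟩, -⟩⟩
        · exact Or.inr ⟨mem_univ _, hb⟩
        · exact Or.inl hb
        · exact absurd hb h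
      · rintro (hb | hb)
        · subst hb
          exact ⟨mem_univ _, Or.inr ⟨Or.inl ⟨rfl, rfl⟩, h⟩⟩
        · exact ⟨mem_univ _, Or.inl hb.2⟩
    rw [e, card_insert_of_notMem (by simp [h']), if_pos rfl, if_neg h]
  · by_cases h2 : v = w
    · subst h2
      have e : univ.filter (fun b => (ade G u v).Adj v b) =
          insert u (univ.filter (fun b => G.Adj v b)) := by
        ext b
        rw [mem_filter, mem_insert, mem_filter, ade_adj]
        constructor
        · rintro ⟨-, hb | ⟨⟨hb, -⟩ | ⟨-, hb⟩, -⟩⟩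
          · exact Or.inr ⟨mem_univ _, hb⟩
          · exact absurd hb h1
          · exact Or.inl hb
        · rintro (hb | hb)
          · subst hb
            exact ⟨mem_univ _, Or.inr ⟨Or.inr ⟨rfl, rfl⟩, h1⟩⟩
          · exact ⟨mem_univ _, Or.inl hb.2⟩
      rw [e, card_insert_of_notMem (by simp [h'']), if_neg h1, if_pos rfl]
    · rw [if_neg h1, if_neg h2]
      congr 1
      ext b
      simp only [mem_filter, mem_univ, true_and, ade_adj]
      constructor
      · rintro (hb | ⟨⟨hb, -⟩ | ⟨hb, -⟩, -⟩)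
        · exact hb
        · exact absurd hb h1
        · exact absurd hb h2
      · exact Or.inl

theorem MD_ade {d : ℕ} {G : SimpleGraph V} (h : MD d G) {p : V × V} (hp : p ∈ AP d G) :
    MD d (ade G p.1 p.2) := by
  classical
  obtain ⟨h1, h2, h3, h4⟩ := mem_AP.mp hp
  intro v
  rw [dg_ade G h1 h2]
  have := h v
  by_cases h5 : v = p.1
  · subst h5
    rw [if_pos rfl, if_neg h1]
    omega
  · by_cases h6 : v = p.2
    · subst h6
      rw [if_neg h5, if_pos rfl]
      omega
    · rw [if_neg h5, if_neg h6]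
      omega

open Classical in
theorem dfc_ade {d : ℕ} {G : SimpleGraph V} {p : V × V} (hp : p ∈ AP d G) (v : V) :
    dfc d (ade G p.1 p.2) v + (if v = p.1 then 1 else 0) + (if v = p.2 then 1 else 0) = dfc d G v := by
  obtain ⟨h1, h2, h3, h4⟩ := mem_AP.mp hp
  unfold dfc
  rw [dg_ade G h1 h2]
  by_cases h5 : v = p.1
  · subst h5
    rw [if_pos rfl, if_neg h1]
    omega
  · by_cases h6 : v = p.2
    · subst h6
      rw [if_neg h5, if_pos rfl]
      omega
    · rw [if_neg h5, if_neg h6]
      omega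

theorem sd_ade {d : ℕ} {G : SimpleGraph V} {p : V × V} (hp : p ∈ AP d G) :
    sd d (ade G p.1 p.2) + 2 = sd d G := by
  classical
  unfold sd
  rw [← Finset.sum_congr rfl (fun v _ => dfc_ade hp v), Finset.sum_add_distrib, Finset.sum_add_distrib]
  simp

omit [Fintype V] in
theorem le_ade (G : SimpleGraph V) (u w : V) : G ≤ ade G u w := le_sup_left

omit [Fintype V] in
theorem ade_adj_self (G : SimpleGraph V) {u w : V} (h : u ≠ w) : (ade G u w).Adj u w := by
  rw [ade_adj]
  exact Or.inr ⟨Or.inl ⟨rfl, rfl⟩, h⟩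

omit [Fintype V] in
/-- the added edge can be removed -/
theorem ade_delete (G : SimpleGraph V) {u w : V} (h' : ¬ G.Adj u w) :
    (ade G u w).deleteEdges {s(u, w)} = G := by
  ext a b
  rw [SimpleGraph.deleteEdges_adj, ade_adj]
  simp only [Set.mem_singleton_iff, Sym2.eq_iff]
  constructor
  · rintro ⟨h1 | ⟨h1, -⟩, h2⟩
    · exact h1
    · exact absurd h1 h2
  · intro h1
    refine ⟨Or.inl h1, ?_⟩
    rintro (⟨rfl, rfl⟩ | ⟨rfl, rfl⟩)
    · exact h' h1
    · exact h' h1.symm

omit [Fintype V] in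
theorem delete_ade (G : SimpleGraph V) {u w : V} (h' : G.Adj u w) :
    ade (G.deleteEdges {s(u, w)}) u w = G := by
  ext a b
  rw [ade_adj, SimpleGraph.deleteEdges_adj]
  simp only [Set.mem_singleton_iff, Sym2.eq_iff]
  constructor
  · rintro (⟨h1, -⟩ | ⟨⟨rfl, rfl⟩ | ⟨rfl, rfl⟩, -⟩)
    · exact h1
    · exact h'
    · exact h'.symm
  · intro h1
    by_cases h2 : a = u ∧ b = w ∨ a = w ∧ b = u
    · exact Or.inr ⟨h2, h1.ne⟩
    · exact Or.inl ⟨h1, h2⟩

/-- the pairs of the graphs with one edge less -/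
theorem delete_mem {d : ℕ} {G : SimpleGraph V} (h : MD d G) {p : V × V} (hp : G.Adj p.1 p.2) :
    MD d (G.deleteEdges {s(p.1, p.2)}) ∧ p ∈ AP d (G.deleteEdges {s(p.1, p.2)}) := by
  classical
  set G' := G.deleteEdges {s(p.1, p.2)} with hG'
  have h0 : ¬ G'.Adj p.1 p.2 := by
    rw [hG', SimpleGraph.deleteEdges_adj]
    simp
  have h1 : ade G' p.1 p.2 = G := delete_ade G hp
  have h2 : ∀ v, dg G v = dg G' v + (if v = p.1 then 1 else 0) + (if v = p.2 then 1 else 0) := by
    intro v
    conv_lhs => rw [← h1]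
    exact dg_ade G' hp.ne h0 v
  refine ⟨fun v => ?_, mem_AP.mpr ⟨hp.ne, h0, ?_, ?_⟩⟩
  · have := h v
    rw [h2 v] at this
    omega
  · have := h p.1
    rw [h2 p.1, if_pos rfl] at this
    omega
  · have := h p.2
    rw [h2 p.2, if_pos rfl] at this
    omega

end Pool.Agent.Helper32.T7
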