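import Pool.Agent.Helper32.T7.Defs

set_option autoImplicit false

/-!
MP_2f9829_co, project T7: statements of the modules. Module `X` proves `ST_X`, with the statements of the
modules it uses as hypotheses. `GG V d s` = graphs on `V` with all degrees at most `d` and total deficiency
`s`; `DV d G` = deficient vertices; `ex d G` = excess (total deficiency minus number of deficient
vertices); `AP d G` = ordered pairs that may be joined; `DP G` = ordered pairs of adjacent vertices;
`BG V d s x` = graphs of `GG V d s` with excess `x` that are not `d`-edge-choosable.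
-/

open Finset Filter Topology

namespace Pool.Agent.Helper32.T7

open Pool.Agent.Helper15.T6 (Reg ChD ST_MAIN6)

/-- MONO: edge-choosability passes to subgraphs. -/
def ST_MONO : Prop := ∀ (V W : Type) (d : ℕ) (f : V → W) (G : SimpleGraph V) (H : SimpleGraph W),
  Function.Injective f → (∀ u v, G.Adj u v → H.Adj (f u) (f v)) → ChD d H → ChD d G

/-- DC: double counting of one edge more or less (`p` ranges over the ordered pairs; the map
`(G, p) ↦ (ade G p.1 p.2, p)` is a bijection from the pairs `G ∈ GG V d (s + 2)`, `p ∈ AP d G` to the pairs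
`G ∈ GG V d s`, `p ∈ DP G`). -/
def ST_DC : Prop := ∀ (V : Type) [Fintype V] (d s : ℕ),
  ∑ G ∈ GG V d (s + 2), (AP d G).card = ∑ G ∈ GG V d s, (DP G).card

/-- APB: number of the pairs that may be joined. -/
def ST_APB : Prop := ∀ (V : Type) [Fintype V] (d : ℕ) (G : SimpleGraph V), MD d G →
  (DV d G).card * (DV d G).card ≤ (AP d G).card + d * (DV d G).card ∧
  (AP d G).card + (DV d G).card ≤ (DV d G).card * (DV d G).card

/-- EXC: the total excess is bounded by the number of graphs with one edge more. (For each `G` count the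
pairs `p ∈ AP d G` with `2 ≤ dfc d G p.1`: there are at least `#{u | 2 ≤ dfc u} * (#DV + 1 - d)` of them and
`ex ≤ (d - 1) * #{u | 2 ≤ dfc u}`, `#DV ≥ (s + 2) / d`; the map `(G, p) ↦ (ade G p.1 p.2, p)` is injective
and `p.1` is deficient in the new graph and adjacent to `p.2`: at most `s * d` pairs.) -/
def ST_EXC : Prop := ∀ (V : Type) [Fintype V] (d s : ℕ), 2 ≤ d → 2 * d * d ≤ s + 2 →
  ∑ G ∈ GG V d (s + 2), ex d G ≤ 2 * d ^ 3 * (GG V d s).card

/-- BX (from MONO): reduction of the excess of bad graphs. (Pairs `p ∈ AP d G` with `2 ≤ dfc d G p.1` and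
`dfc d G p.2 = 1`: for each `G` at least `s + 2 - 2 (x + 1) - d`; in the new graph `p.1` is deficient and
adjacent to `p.2`: at most `s * d` pairs.) -/
def ST_BX : Prop := ∀ (V : Type) [Fintype V] (d s x : ℕ), 2 ≤ d →
  (BG V d (s + 2) (x + 1)).card * (s + 2 - 2 * (x + 1) - d) ≤ (BG V d s x).card * (s * d)

/-- BS (from MONO, APB): bad graphs with all deficiencies at most one. (All pairs `p ∈ AP d G`; here
`#DV = s + 2`.) -/
def ST_BS : Prop := ∀ (V : Type) [Fintype V] (d s : ℕ), 2 ≤ d →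
  (BG V d (s + 2) 0).card * ((s + 2) * (s + 2 - d)) ≤ (BG V d s 0).card * (d * Fintype.card V)

/-- NV (from MONO): a new vertex (the last one) is joined to `d` of the `s + d` deficient vertices. -/
def ST_NV : Prop := ∀ n d s : ℕ,
  (BG (Fin n) d (s + d) 0).card * (s + d).choose d ≤ (BG (Fin (n + 1)) d s 0).card

/-- IND: removing the last vertex (which has `d` neighbours, none of them among the last `r + 1`
vertices). -/
def ST_IND : Prop := ∀ n r d s : ℕ,
  (IG n (r + 1) d s).card ≤ (s + d).choose d * (IG n r d (s + d)).card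

/-- SYM: by symmetry the number of the `d`-regular graphs for which two given vertices are adjacent is
`d / (N - 1)` times their number; the union bound over the pairs of the last `r` vertices. -/
def ST_SYM : Prop := ∀ n r d : ℕ, 1 ≤ n →
  2 * (n + r - 1) * (GG (Fin (n + r)) d 0).card ≤
    2 * (n + r - 1) * (IG n r d 0).card + r * (r - 1) * d * (GG (Fin (n + r)) d 0).card

/-- RB (from MAIN6): bad regular graphs are rare. -/
def ST_RB : Prop := ∀ d : ℕ, 3 ≤ d → ∀ ε : ℝ, 0 < ε → ∃ n₀ : ℕ, ∀ N : ℕ, n₀ ≤ N → Even N →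
  ((BG (Fin N) d 0 0).card : ℝ) ≤ ε * ((GG (Fin N) d 0).card : ℝ)

/-- B1 (from NV, IND, SYM, RB): bad graphs with all deficiencies at most one and total deficiency
`d r`, where `n + r` is even and `r ^ 2 d ≤ (3 / 2) n`. -/
def ST_B1 : Prop := ∀ d : ℕ, 3 ≤ d → ∀ ε : ℝ, 0 < ε → ∃ n₀ : ℕ, ∀ n : ℕ, n₀ ≤ n → ∀ r : ℕ,
  Even (n + r) → 2 * (r * r * d) ≤ 3 * n →
  ((BG (Fin n) d (d * r) 0).card : ℝ) ≤ ε * ((GG (Fin n) d (d * r)).card : ℝ)

/-- LOW (from DC, APB): lower side of the peak. -/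
def ST_LOW : Prop := ∀ n d s : ℕ,
  (d * n - s) * (GG (Fin n) d s).card ≤ (s + 2) * (s + 1) * (GG (Fin n) d (s + 2)).card

/-- UPP (from DC, APB, EXC): upper side of the peak. -/
def ST_UPP : Prop := ∀ d : ℕ, 3 ≤ d → ∃ n₀ : ℕ, ∀ n : ℕ, n₀ ≤ n → ∀ s : ℕ, 5 * (d * n) ≤ 4 * (s * s) →
  10 * (GG (Fin n) d (s + 2)).card ≤ 9 * (GG (Fin n) d s).card

/-- TAIL (from LOW, UPP): the total deficiency is close to `√(d n)`. -/
def ST_TAIL : Prop := ∀ d : ℕ, 3 ≤ d → ∀ ε : ℝ, 0 < ε → ∃ n₀ : ℕ, ∀ n : ℕ, n₀ ≤ n →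
  (∑ s ∈ (range (d * n + 1)).filter (fun s => 2 * (s * s) < d * n ∨ 3 * (d * n) < 2 * (s * s)),
    ((GG (Fin n) d s).card : ℝ)) ≤ ε * ∑ s ∈ range (d * n + 1), ((GG (Fin n) d s).card : ℝ)

/-- BAD (from EXC, LOW, BX, BS, B1): for a total deficiency in the window the bad graphs are rare. -/
def ST_BAD : Prop := ∀ d : ℕ, 3 ≤ d → ∀ ε : ℝ, 0 < ε → ∃ n₀ : ℕ, ∀ n : ℕ, n₀ ≤ n →
  (∑ s ∈ (range (d * n + 1)).filter (fun s => ¬ (2 * (s * s) < d * n ∨ 3 * (d * n) < 2 * (s * s))),
    ∑ x ∈ range (d * n + 1), ((BG (Fin n) d s x).card : ℝ)) ≤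
      ε * ∑ s ∈ range (d * n + 1), ((GG (Fin n) d s).card : ℝ)

/-- The list edge colouring conjecture for the graph `G`: for every `k` the edges can be coloured with
`k` colours if and only if they can be coloured from any lists of `k` colours. -/
def LEC {V : Type} (G : SimpleGraph V) : Prop := ∀ k : ℕ, G.lineGraph.Colorable k ↔
  ∀ L : G.edgeSet → Finset ℕ, (∀ e, k ≤ (L e).card) →
    ∃ f : G.edgeSet → ℕ, (∀ e, f e ∈ L e) ∧ ∀ e e', G.lineGraph.Adj e e' → f e ≠ f e'

/-- MAIN7 (from TAIL, BAD): almost all graphs with all degrees at most `d` have maximum degree `d` and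
are `d`-edge-choosable. -/
def ST_MAIN7 : Prop := ∀ d : ℕ, 3 ≤ d → Tendsto (fun n : ℕ =>
  (Set.ncard {G : SimpleGraph (Fin n) | MD d G ∧ (∃ v, dg G v = d) ∧ ChD d G} : ℝ) /
    (Set.ncard {G : SimpleGraph (Fin n) | MD d G} : ℝ)) atTop (𝓝 1)

/-- WRAP7: the conjecture for one graph of maximum degree `d`. -/
def ST_WRAP7 : Prop := ∀ (V : Type) [Fintype V] (d : ℕ) (G : SimpleGraph V), (∃ v, dg G v = d) →
  ChD d G → LEC G

end Pool.Agent.Helper32.T7
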